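import Pool.Agent.H37.CTT.Stmts

/-! Row SU2 of the board ctt: elements of order prime to `p` of `Sp_4(q)` which normalise a nontrivial
`p`-subgroup. -/

set_option autoImplicit false

namespace Pool.CND

open Finset Polynomial Matrix

theorem su2_y {F : Type} [Field F] (A B C D E G : F) :
    (!![A, B, C, 0; D, E, 0, -C; G, 0, E, B; 0, -G, D, A] : Matrix (Fin 4) (Fin 4) F) *
      !![A, B, C, 0; D, E, 0, -C; G, 0, E, B; 0, -G, D, A] -
      (A + E) • !![A, B, C, 0; D, E, 0, -C; G, 0, E, B; 0, -G, D, A] +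
      (A * E - B * D - C * G) • (1 : Matrix (Fin 4) (Fin 4) F) = 0 := by
  ext i j
  fin_cases i <;> fin_cases j <;>
    simp [Matrix.mul_apply, Fin.sum_univ_four] <;> ring

theorem su2_h {F : Type} [Field F] (g : Matrix (Fin 4) (Fin 4) F) :
    g - J4s F * gᵀ * J4s F =
      !![g 0 0 + g 3 3, g 0 1 + g 2 3, g 0 2 - g 1 3, 0;
        g 1 0 + g 3 2, g 1 1 + g 2 2, 0, -(g 0 2 - g 1 3);
        g 2 0 - g 3 1, 0, g 1 1 + g 2 2, g 0 1 + g 2 3;
        0, -(g 2 0 - g 3 1), g 1 0 + g 3 2, g 0 0 + g 3 3] := by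
  ext i j
  simp only [Matrix.sub_apply, Matrix.mul_apply, Fin.sum_univ_four, Matrix.transpose_apply]
  fin_cases i <;> fin_cases j <;> simp [J4s] <;> ring

theorem su2_J {F : Type} [Field F] : J4s F * J4s F = -1 := by
  ext i j
  fin_cases i <;> fin_cases j <;> simp [J4s, Matrix.mul_apply, Fin.sum_univ_four]

/-- the palindromic relation -/
theorem su2_rel {F : Type} [Field F] (g : Matrix (Fin 4) (Fin 4) F)
    (hg : gᵀ * J4s F * g = J4s F) :
    ∃ τ δ : F, g ^ 4 - τ • g ^ 3 + (2 + δ) • g ^ 2 - τ • g + 1 = 0 := by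
  obtain ⟨h, hh⟩ : ∃ h : Matrix (Fin 4) (Fin 4) F, h = -(J4s F * gᵀ * J4s F) := ⟨_, rfl⟩
  have h1 : h * g = 1 := by
    rw [hh, Matrix.neg_mul, Matrix.mul_assoc, Matrix.mul_assoc, ← Matrix.mul_assoc gᵀ, hg, su2_J,
      neg_neg]
  have h2 : g * h = 1 := mul_eq_one_comm.1 h1
  obtain ⟨τ, δ, hy⟩ : ∃ τ δ : F, (g + h) * (g + h) - τ • (g + h) +
      δ • (1 : Matrix (Fin 4) (Fin 4) F) = 0 := by
    have e : g + h = g - J4s F * gᵀ * J4s F := by rw [hh, sub_eq_add_neg]
    rw [e, su2_h]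
    exact ⟨_, _, su2_y _ _ _ _ _ _⟩
  refine ⟨τ, δ, ?_⟩
  have h3 : g * (g + h) = g ^ 2 + 1 := by rw [mul_add, h2, pow_two]
  have hc : Commute g h := by rw [Commute, SemiconjBy, h1, h2]
  have h4 : g ^ 2 * ((g + h) * (g + h)) = (g ^ 2 + 1) * (g ^ 2 + 1) := by
    have hc2 : Commute g (g + h) := (Commute.refl g).add_right hc
    calc g ^ 2 * ((g + h) * (g + h)) = g * (g * (g + h)) * (g + h) := by
          rw [pow_two]; simp only [mul_assoc]
      _ = g * ((g + h) * g) * (g + h) := by rw [hc2.eq]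
      _ = (g * (g + h)) * (g * (g + h)) := by simp only [mul_assoc]
      _ = (g ^ 2 + 1) * (g ^ 2 + 1) := by rw [h3]
  have h5 : g ^ 2 * (g + h) = g * (g ^ 2 + 1) := by rw [pow_two, mul_assoc, h3, pow_two]
  have h6 : g ^ 2 * ((g + h) * (g + h) - τ • (g + h) +
      δ • (1 : Matrix (Fin 4) (Fin 4) F)) = 0 := by rw [hy, mul_zero]
  rw [mul_add, mul_sub, h4, mul_smul_comm, h5, mul_smul_comm, mul_one] at h6
  have h7 : (g ^ 2 + 1) * (g ^ 2 + 1) = g ^ 4 + (2 : F) • g ^ 2 + 1 := by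
    rw [two_smul]
    noncomm_ring
  have h8 : g * (g ^ 2 + 1) = g ^ 3 + g := by noncomm_ring
  rw [h7, h8] at h6
  rw [← h6, smul_add, add_smul]
  abel

/-- a common root -/
theorem su2_root {F : Type} [Field F] (K : Type) [Field K] [IsAlgClosed K] [Algebra F K]
    (g : Matrix (Fin 4) (Fin 4) F) (P m : F[X]) (u : Fin 4 → F) (hu : u ≠ 0)
    (hP : aeval g P = 0) (hm : (aeval g m).mulVec u = 0) :
    ∃ θ : K, aeval θ P = 0 ∧ aeval θ m = 0 := by
  by_contra hn
  push Not at hn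
  have h1 : IsCoprime P m := by
    refine (Polynomial.isCoprime_iff_aeval_ne_zero_of_isAlgClosed F K P m).2 fun a => ?_
    by_cases h : aeval a P = 0
    · exact Or.inr (hn a h)
    · exact Or.inl h
  obtain ⟨a, b, hab⟩ := h1
  have h2 := congrArg (aeval g) hab
  rw [map_add, map_mul, map_mul, hP, mul_zero, zero_add, map_one] at h2
  have h3 : (aeval g b * aeval g m).mulVec u = u := by rw [h2, Matrix.one_mulVec]
  rw [← Matrix.mulVec_mulVec, hm, Matrix.mulVec_zero] at h3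
  exact hu h3.symm

/-- the roots -/
theorem su2_eps {K : Type} [Field K] (q s : ℕ) (φ : K →+* K) (hφ : ∀ x, φ x = x ^ q)
    (hq : q = 2 * s + 1) (τ δ b c θ : K) (hτ : φ τ = τ) (hδ : φ δ = δ) (hb : φ b = b)
    (hc : φ c = c) (hθ : θ ^ 2 = b * θ + c)
    (hP : θ ^ 4 - τ * θ ^ 3 + (2 + δ) * θ ^ 2 - τ * θ + 1 = 0) :
    ∃ ε : ℤ, (ε = 1 ∨ ε = -1) ∧ ∀ l : K, l ^ 4 - τ * l ^ 3 + (2 + δ) * l ^ 2 - τ * l + 1 = 0 →
      l ^ (2 * s * (s + 1)) = (ε : K) := by
  have hne : ∀ l : K, l ^ 4 - τ * l ^ 3 + (2 + δ) * l ^ 2 - τ * l + 1 = 0 → l ≠ 0 := by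
    rintro l hl rfl
    simp at hl
  have hY : ∀ l : K, l ^ 4 - τ * l ^ 3 + (2 + δ) * l ^ 2 - τ * l + 1 = 0 →
      (l + l⁻¹) ^ 2 - τ * (l + l⁻¹) + δ = 0 := by
    intro l hl
    have h0 := hne l hl
    have h1 : l ^ 2 * ((l + l⁻¹) ^ 2 - τ * (l + l⁻¹) + δ) = 0 := by
      rw [← hl]
      field_simp
      ring
    exact (mul_eq_zero.1 h1).resolve_left (pow_ne_zero 2 h0)
  have hθ0 := hne θ hP
  have hYθ := hY θ hP
  obtain ⟨Y, hYd⟩ : ∃ Y : K, Y = θ + θ⁻¹ := ⟨_, rfl⟩
  rw [← hYd] at hYθ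
  have hquad : ∀ l : K, l ^ 4 - τ * l ^ 3 + (2 + δ) * l ^ 2 - τ * l + 1 = 0 →
      l + l⁻¹ = Y ∨ l + l⁻¹ = τ - Y := by
    intro l hl
    have h1 := hY l hl
    have h2 : (l + l⁻¹ - Y) * (l + l⁻¹ - (τ - Y)) = 0 := by
      linear_combination h1 - hYθ
    rcases mul_eq_zero.1 h2 with h | h
    · exact Or.inl (sub_eq_zero.1 h)
    · exact Or.inr (sub_eq_zero.1 h)
  have hself : ∀ l : K, l ≠ 0 → l ^ 2 - (l + l⁻¹) * l + 1 = 0 := by
    intro l hl
    field_simp
    ring
  by_cases hc1 : φ Y = Y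
  · refine ⟨1, Or.inl rfl, ?_⟩
    intro l hl
    have hl0 := hne l hl
    have hfix : φ (l + l⁻¹) = l + l⁻¹ := by
      rcases hquad l hl with h | h
      · rw [h, hc1]
      · rw [h, map_sub, hτ, hc1]
    have h1 := congrArg φ (hself l hl0)
    rw [map_add, map_sub, map_pow, map_mul, hfix, map_one, map_zero] at h1
    have h2 : (φ l - l) * (φ l - l⁻¹) = 0 := by
      have e : l * l⁻¹ = 1 := mul_inv_cancel₀ hl0
      linear_combination h1 + e
    have h3 : l ^ (2 * s) = 1 ∨ l ^ (2 * (s + 1)) = 1 := by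
      rcases mul_eq_zero.1 h2 with h | h
      · left
        have h4 : l ^ q = l := by rw [← hφ]; exact sub_eq_zero.1 h
        rw [hq, pow_succ] at h4
        exact mul_right_cancel₀ hl0 (by rw [h4, one_mul])
      · right
        have h4 : l ^ q = l⁻¹ := by rw [← hφ]; exact sub_eq_zero.1 h
        have h5 : 2 * (s + 1) = q + 1 := by omega
        rw [h5, pow_succ, h4, inv_mul_cancel₀ hl0]
    rcases h3 with h | h
    · rw [pow_mul, h, one_pow]; simp
    · have e : 2 * s * (s + 1) = 2 * (s + 1) * s := by ring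
      rw [e, pow_mul, h, one_pow]; simp
  · have hθq : φ θ ≠ θ := by
      intro h
      apply hc1
      rw [hYd, map_add, map_inv₀, h]
    have h1 : φ θ = b - θ := by
      have h2 := congrArg φ hθ
      rw [map_pow, map_add, map_mul, hb, hc] at h2
      have h3 : (φ θ - θ) * (φ θ - (b - θ)) = 0 := by linear_combination h2 - hθ
      exact sub_eq_zero.1 ((mul_eq_zero.1 h3).resolve_left (sub_ne_zero.2 hθq))
    have h2 : φ (φ θ) = θ := by rw [h1, map_sub, hb, h1]; ring
    have h3 : θ ^ (2 * s * (s + 1)) * θ ^ (2 * s * (s + 1)) = 1 := by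
      rw [hφ, hφ, ← pow_mul] at h2
      have e : q * q = (2 * s * (s + 1) + 2 * s * (s + 1)) + 1 := by rw [hq]; ring
      rw [e, pow_succ, pow_add] at h2
      exact mul_right_cancel₀ hθ0 (by rw [h2, one_mul])
    have hYq : φ Y = τ - Y := by
      have h4 := congrArg φ hYθ
      rw [map_add, map_sub, map_pow, map_mul, hτ, hδ, map_zero] at h4
      have h5 : (φ Y - Y) * (φ Y - (τ - Y)) = 0 := by linear_combination h4 - hYθ
      exact sub_eq_zero.1 ((mul_eq_zero.1 h5).resolve_left (sub_ne_zero.2 hc1))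
    obtain ⟨ε, hε, hεθ⟩ : ∃ ε : ℤ, (ε = 1 ∨ ε = -1) ∧ θ ^ (2 * s * (s + 1)) = (ε : K) := by
      rcases mul_self_eq_one_iff.1 h3 with h | h
      · exact ⟨1, Or.inl rfl, by rw [h]; simp⟩
      · exact ⟨-1, Or.inr rfl, by rw [h]; simp⟩
    have hεi : (ε : K)⁻¹ = ε := by rcases hε with rfl | rfl <;> simp
    have hεq : (ε : K) ^ q = ε := by
      rcases hε with rfl | rfl
      · simp
      · have : Odd q := ⟨s, hq⟩
        rw [Int.cast_neg, Int.cast_one, this.neg_one_pow]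
    refine ⟨ε, hε, ?_⟩
    intro l hl
    have hl0 := hne l hl
    have hs := hself l hl0
    rcases hquad l hl with h | h
    · rw [h, hYd] at hs
      have h6 : (l - θ) * (l - θ⁻¹) = 0 := by
        have e : θ * θ⁻¹ = 1 := mul_inv_cancel₀ hθ0
        linear_combination hs + e
      rcases mul_eq_zero.1 h6 with h7 | h7
      · rw [sub_eq_zero.1 h7, hεθ]
      · rw [sub_eq_zero.1 h7, inv_pow, hεθ, hεi]
    · rw [h, ← hYq, hYd, map_add, map_inv₀] at hs
      have hθ1 : φ θ ≠ 0 := (map_ne_zero φ).2 hθ0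
      have h6 : (l - φ θ) * (l - (φ θ)⁻¹) = 0 := by
        have e : φ θ * (φ θ)⁻¹ = 1 := mul_inv_cancel₀ hθ1
        linear_combination hs + e
      have h8 : (φ θ) ^ (2 * s * (s + 1)) = (ε : K) := by
        rw [hφ, ← pow_mul, mul_comm q, pow_mul, hεθ, hεq]
      rcases mul_eq_zero.1 h6 with h7 | h7
      · rw [sub_eq_zero.1 h7, h8]
      · rw [sub_eq_zero.1 h7, inv_pow, h8, hεi]

/-- divisibility -/
theorem su2_dvd {F : Type} [Field F] (K : Type) [Field K] [IsAlgClosed K] [Algebra F K]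
    (P : F[X]) (N : ℕ) (ε : ℤ) (hP : P.Monic) (hdeg : P.natDegree ≤ 4)
    (h : ∀ l : K, aeval l P = 0 → l ^ N = (ε : K)) : P ∣ (X ^ N - C (ε : F)) ^ 4 := by
  rw [← Polynomial.map_dvd_map' (algebraMap F K)]
  have hm : (P.map (algebraMap F K)).Monic := hP.map _
  have hs : (P.map (algebraMap F K)).Splits := IsAlgClosed.splits _
  rw [hs.eq_prod_roots_of_monic hm, Polynomial.map_pow, Polynomial.map_sub, Polynomial.map_pow,
    Polynomial.map_X, Polynomial.map_C]
  have h1 : ((P.map (algebraMap F K)).roots.map (fun a => X - C a)).prod ∣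
      ((P.map (algebraMap F K)).roots.map
        (fun _ => (X ^ N - C (algebraMap F K (ε : F)) : K[X]))).prod := by
    refine Multiset.prod_dvd_prod_of_dvd _ _ ?_
    intro a ha
    rw [dvd_iff_isRoot]
    have h2 : aeval a P = 0 := by
      have h3 := (mem_roots'.1 ha).2
      rwa [IsRoot, eval_map_algebraMap] at h3
    rw [IsRoot, eval_sub, eval_pow, eval_X, eval_C, h a h2, map_intCast, sub_self]
  refine h1.trans ?_
  rw [Multiset.map_const', Multiset.prod_replicate]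
  refine pow_dvd_pow _ ?_
  refine (card_roots' _).trans ?_
  rw [natDegree_map]
  exact hdeg

/-- `ε` times a unipotent element of order prime to `p` -/
theorem su2_unip {F : Type} [Field F] (p n : ℕ) [CharP F p] (hp : p.Prime) (hp2 : p ≠ 2)
    (h : Matrix (Fin 4) (Fin 4) F) (ε : ℤ) (hε : ε = 1 ∨ ε = -1)
    (h4 : (h - algebraMap F (Matrix (Fin 4) (Fin 4) F) (ε : F)) ^ 4 = 0) (hn : h ^ n = 1)
    (hpn : ¬ p ∣ n) : h = algebraMap F (Matrix (Fin 4) (Fin 4) F) (ε : F) := by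
  haveI := Fact.mk hp
  obtain ⟨E, hE⟩ : ∃ E : Matrix (Fin 4) (Fin 4) F,
    E = algebraMap F (Matrix (Fin 4) (Fin 4) F) (ε : F) := ⟨_, rfl⟩
  rw [← hE] at h4 ⊢
  have hc : Commute h E := by rw [hE]; exact (Algebra.commutes _ _).symm
  have hEE : E ^ 2 = 1 := by
    rw [hE, ← map_pow]
    rcases hε with rfl | rfl <;> simp
  have hodd : Odd (p ^ 2) := (hp.odd_of_ne_two hp2).pow
  obtain ⟨k, hk⟩ := hodd
  have hEp : E ^ p ^ 2 = E := by rw [hk, pow_succ, pow_mul, hEE, one_pow, one_mul]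
  have h5 : (h - E) ^ p ^ 2 = 0 := by
    have h6 : 4 ≤ p ^ 2 := by nlinarith [hp.two_le]
    obtain ⟨j, hj⟩ := Nat.exists_eq_add_of_le h6
    rw [hj, pow_add, h4, zero_mul]
  rw [sub_pow_char_pow_of_commute _ _ hc, hEp, sub_eq_zero] at h5
  have h7 : (h ^ 2) ^ p ^ 2 = 1 := by rw [← pow_mul, mul_comm, pow_mul, h5, hEE]
  have h8 : (h ^ 2) ^ n = 1 := by rw [← pow_mul, mul_comm, pow_mul, hn, one_pow]
  have h9 := pow_gcd_eq_one.2 ⟨h7, h8⟩
  have h10 : Nat.gcd (p ^ 2) n = 1 :=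
    Nat.Coprime.pow_left 2 ((Nat.Prime.coprime_iff_not_dvd hp).2 hpn)
  rw [h10, pow_one] at h9
  rw [← h5, hk, pow_succ, pow_mul, h9, one_pow, one_mul]

/-- linear algebra -/
theorem su2_sub {F : Type} [Field F] (T : (Fin 4 → F) →ₗ[F] (Fin 4 → F))
    (S : Submodule F (Fin 4 → F)) (hb : S ≠ ⊥) (ht : S ≠ ⊤) (hT : ∀ v ∈ S, T v ∈ S) :
    ∃ (u : Fin 4 → F) (b c : F), u ≠ 0 ∧ T (T u) = b • T u + c • u := by
  have h4 : Module.finrank F (Fin 4 → F) = 4 := by simp
  by_cases hd : Module.finrank F S ≤ 2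
  · obtain ⟨u, hu, hu0⟩ := (Submodule.ne_bot_iff S).1 hb
    by_cases h : T u ∈ Submodule.span F {u}
    · obtain ⟨a, ha⟩ := Submodule.mem_span_singleton.1 h
      exact ⟨u, a, 0, hu0, by rw [zero_smul, add_zero]; nth_rw 1 [← ha]; rw [map_smul]⟩
    · have h1 : Submodule.span F {u} < Submodule.span F {T u, u} := by
        refine lt_of_le_of_ne (Submodule.span_mono (by simp)) ?_
        intro he
        apply h
        rw [he]
        exact Submodule.subset_span (by simp)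
      have h2 := Submodule.finrank_lt_finrank_of_lt h1
      rw [finrank_span_singleton hu0] at h2
      have h3 : Submodule.span F {T u, u} ≤ S := by
        rw [Submodule.span_le]
        rintro x hx
        rcases hx with rfl | hx
        · exact hT u hu
        · rw [Set.mem_singleton_iff] at hx
          rw [hx]; exact hu
      have h5 := Submodule.eq_of_le_of_finrank_le h3 (by omega)
      have h6 : T (T u) ∈ Submodule.span F {T u, u} := by
        rw [h5]
        exact hT _ (hT _ hu)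
      obtain ⟨b, c, hbc⟩ := Submodule.mem_span_pair.1 h6
      exact ⟨u, b, c, hu0, hbc.symm⟩
  · obtain ⟨v, hv⟩ : ∃ v, v ∉ S := by
      by_contra hn
      push Not at hn
      exact ht ((Submodule.eq_top_iff').2 hn)
    have h1 : S < S ⊔ Submodule.span F {v} := by
      refine lt_of_le_of_ne le_sup_left ?_
      intro he
      apply hv
      rw [he]
      exact Submodule.mem_sup_right (Submodule.mem_span_singleton_self v)
    have h2 := Submodule.finrank_lt_finrank_of_lt h1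
    have h3 : S ⊔ Submodule.span F {v} = ⊤ := by
      apply Submodule.eq_top_of_finrank_eq
      have := Submodule.finrank_le (S ⊔ Submodule.span F {v})
      omega
    have h5 : ∀ x, ∃ s ∈ S, ∃ a : F, x = s + a • v := by
      intro x
      have hx : x ∈ S ⊔ Submodule.span F {v} := by rw [h3]; trivial
      obtain ⟨s, hs, y, hy, rfl⟩ := Submodule.mem_sup.1 hx
      obtain ⟨a, rfl⟩ := Submodule.mem_span_singleton.1 hy
      exact ⟨s, hs, a, rfl⟩
    obtain ⟨s, hs, a, ha⟩ := h5 (T v)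
    have h6 : ∀ x, T x - a • x ∈ S := by
      intro x
      obtain ⟨s', hs', a', rfl⟩ := h5 x
      have e : T (s' + a' • v) - a • (s' + a' • v) = (T s' - a • s') + a' • s := by
        rw [map_add, map_smul, ha]
        simp only [smul_add, smul_smul]
        rw [mul_comm a a']
        abel
      rw [e]
      exact S.add_mem (S.sub_mem (hT _ hs') (S.smul_mem _ hs')) (S.smul_mem _ hs)
    let R : (Fin 4 → F) →ₗ[F] (Fin 4 → F) := T - a • LinearMap.id
    have h7 : ¬ Function.Injective R := by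
      intro hi
      have hsur := LinearMap.surjective_of_injective hi
      obtain ⟨x, hx⟩ := hsur v
      apply hv
      rw [← hx]
      exact h6 x
    have h8 : ∃ u, u ≠ 0 ∧ R u = 0 := by
      by_contra hn
      push Not at hn
      apply h7
      rw [injective_iff_map_eq_zero]
      intro x hx
      by_contra hx0
      exact hn x hx0 hx
    obtain ⟨u, hu, hu2⟩ := h8
    have h9 : T u = a • u := by
      have : T u - a • u = 0 := hu2
      exact sub_eq_zero.1 this
    exact ⟨u, a, 0, hu, by rw [zero_smul, add_zero]; nth_rw 1 [h9]; rw [map_smul]⟩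

/-- a nonzero proper subspace stable under `g` -/
theorem su2_fix {F : Type} [Field F] (p f q : ℕ) (W : Subgroup (Sp4 F)) (g : Sp4 F)
    (hp : p.Prime) (hf : 1 ≤ f) (hq : q = p ^ f) (hF : Nat.card F = q)
    (hW : ∃ n : ℕ, Nat.card W = p ^ n) (hW1 : W ≠ ⊥) (hn : ∀ w ∈ W, g * w * g⁻¹ ∈ W) :
    ∃ S : Submodule F (Fin 4 → F), S ≠ ⊥ ∧ S ≠ ⊤ ∧ ∀ v ∈ S, g.1.1.mulVec v ∈ S := by
  haveI := Fact.mk hp
  haveI : Finite F := Nat.finite_of_card_ne_zero (by
    rw [hF, hq]; exact pow_ne_zero _ hp.ne_zero)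
  obtain ⟨n, hWn⟩ := hW
  haveI : Finite W := Nat.finite_of_card_ne_zero (by
    rw [hWn]; exact pow_ne_zero _ hp.ne_zero)
  let S : Submodule F (Fin 4 → F) :=
    { carrier := {v | ∀ w ∈ W, w.1.1.mulVec v = v}
      add_mem' := by
        intro a b ha hb w hw
        rw [Matrix.mulVec_add, ha w hw, hb w hw]
      zero_mem' := by
        intro w _
        rw [Matrix.mulVec_zero]
      smul_mem' := by
        intro c v hv w hw
        rw [Matrix.mulVec_smul, hv w hw] }
  refine ⟨S, ?_, ?_, ?_⟩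
  · letI act : MulAction W (Fin 4 → F) :=
      { smul := fun w v => (w : Sp4 F).1.1.mulVec v
        one_smul := by
          intro v
          show (1 : Matrix (Fin 4) (Fin 4) F).mulVec v = v
          rw [Matrix.one_mulVec]
        mul_smul := by
          intro a b v
          show ((a : Sp4 F).1.1 * (b : Sp4 F).1.1).mulVec v =
            (a : Sp4 F).1.1.mulVec ((b : Sp4 F).1.1.mulVec v)
          rw [Matrix.mulVec_mulVec] }
    have hG : IsPGroup p W := IsPGroup.of_card hWn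
    have hd : p ∣ Nat.card (Fin 4 → F) := by
      rw [Nat.card_fun, hF, hq, Nat.card_eq_fintype_card, Fintype.card_fin]
      exact dvd_pow (dvd_pow_self p (by omega)) (by norm_num)
    have h0 : (0 : Fin 4 → F) ∈ MulAction.fixedPoints W (Fin 4 → F) := by
      intro w
      show (w : Sp4 F).1.1.mulVec 0 = 0
      rw [Matrix.mulVec_zero]
    obtain ⟨b, hb, hb0⟩ := hG.exists_fixed_point_of_prime_dvd_card_of_fixed_point
      (Fin 4 → F) hd h0
    rw [Submodule.ne_bot_iff]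
    refine ⟨b, ?_, fun h => hb0 h.symm⟩
    intro w hw
    exact hb ⟨w, hw⟩
  · intro ht
    obtain ⟨w, hw⟩ := Subgroup.ne_bot_iff_exists_ne_one.1 hW1
    apply hw
    apply Subtype.ext
    apply Subtype.ext
    apply Subtype.ext
    ext i j
    have h1 : (Pi.single j (1 : F) : Fin 4 → F) ∈ S := by rw [ht]; trivial
    have h2 := congrFun (h1 w.1 w.2) i
    rw [Matrix.mulVec_single_one] at h2
    rw [Matrix.col_apply] at h2
    rw [h2]
    show (Pi.single j (1 : F) : Fin 4 → F) i = (1 : Matrix (Fin 4) (Fin 4) F) i j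
    rw [Matrix.one_apply, Pi.single_apply]
  · intro v hv w hw
    have hinj : Function.Injective (fun w : W => (⟨g * w * g⁻¹, hn w w.2⟩ : W)) := by
      intro a b hab
      have h1 : g * (a : Sp4 F) * g⁻¹ = g * b * g⁻¹ := congrArg Subtype.val hab
      apply Subtype.ext
      exact mul_left_cancel (mul_right_cancel h1)
    obtain ⟨w', hw'⟩ := Finite.surjective_of_injective hinj ⟨w, hw⟩
    have h1 : g * (w' : Sp4 F) * g⁻¹ = w := congrArg Subtype.val hw'
    have h2 : w * g = g * w' := by rw [← h1]; group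
    have h3 : w.1.1 * g.1.1 = g.1.1 * (w' : Sp4 F).1.1 := congrArg (fun x : Sp4 F => x.1.1) h2
    rw [Matrix.mulVec_mulVec, h3, ← Matrix.mulVec_mulVec, hv _ w'.2]

theorem su2_thm : S_SU2 := by
  intro p f q F _ W g hp hp2 hf hq hF hW hW1 hgp hn
  haveI := Fact.mk hp
  haveI : Finite F := Nat.finite_of_card_ne_zero (by
    rw [hF, hq]; exact pow_ne_zero _ hp.ne_zero)
  haveI : Fintype F := Fintype.ofFinite F
  have hFc : Fintype.card F = q := by rw [← Nat.card_eq_fintype_card, hF]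
  haveI : CharP F p := charP_of_card_eq_prime_pow (hFc.trans hq)
  obtain ⟨s, hs⟩ : Odd q := by rw [hq]; exact (hp.odd_of_ne_two hp2).pow
  obtain ⟨S, hSb, hSt, hS⟩ := su2_fix p f q W g hp hf hq hF hW hW1 hn
  obtain ⟨u, b, c, hu, hbc⟩ := su2_sub (Matrix.mulVecLin g.1.1) S hSb hSt
    (fun v hv => by rw [Matrix.mulVecLin_apply]; exact hS v hv)
  rw [Matrix.mulVecLin_apply, Matrix.mulVecLin_apply, Matrix.mulVec_mulVec] at hbc
  obtain ⟨τ, δ, hrel⟩ := su2_rel g.1.1 g.2
  obtain ⟨P, hPd⟩ : ∃ P : F[X], P = X ^ 4 - C τ * X ^ 3 + C (2 + δ) * X ^ 2 - C τ * X + C 1 :=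
    ⟨_, rfl⟩
  obtain ⟨m, hmd⟩ : ∃ m : F[X], m = X ^ 2 - C b * X - C c := ⟨_, rfl⟩
  have hPm : P.Monic := by rw [hPd]; monicity!
  have hPdeg : P.natDegree ≤ 4 := by rw [hPd]; compute_degree
  have hPg : aeval g.1.1 P = 0 := by
    rw [hPd, ← hrel]
    simp [Algebra.smul_def]
  have hmg : (aeval g.1.1 m).mulVec u = 0 := by
    have e : aeval g.1.1 m = g.1.1 * g.1.1 - b • g.1.1 - c • 1 := by
      rw [hmd]
      simp [Algebra.smul_def, pow_two]
    rw [e, Matrix.sub_mulVec, Matrix.sub_mulVec, hbc, Matrix.smul_mulVec, Matrix.smul_mulVec,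
      Matrix.one_mulVec]
    abel
  let K := AlgebraicClosure F
  haveI : CharP K p := charP_of_injective_algebraMap (algebraMap F K).injective p
  obtain ⟨θ, hθP, hθm⟩ := su2_root K g.1.1 P m u hu hPg hmg
  let φ : K →+* K := iterateFrobenius K p f
  have hφ : ∀ x, φ x = x ^ q := by
    intro x
    show iterateFrobenius K p f x = x ^ q
    rw [iterateFrobenius_def, hq]
  have hφF : ∀ x : F, φ (algebraMap F K x) = algebraMap F K x := by
    intro x
    rw [hφ, ← map_pow, ← hFc, FiniteField.pow_card]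
  have hev : ∀ l : K, aeval l P = l ^ 4 - algebraMap F K τ * l ^ 3 +
      (2 + algebraMap F K δ) * l ^ 2 - algebraMap F K τ * l + 1 := by
    intro l
    have h2 : algebraMap F K 2 = 2 := map_ofNat _ 2
    rw [hPd]
    simp [h2]
  have hevm : aeval θ m = θ ^ 2 - algebraMap F K b * θ - algebraMap F K c := by
    rw [hmd]
    simp
  rw [hev] at hθP
  rw [hevm] at hθm
  obtain ⟨ε, hε, hroots⟩ := su2_eps q s φ hφ hs (algebraMap F K τ) (algebraMap F K δ)
    (algebraMap F K b) (algebraMap F K c) θ (hφF _) (hφF _) (hφF _) (hφF _)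
    (by linear_combination hθm) hθP
  have hN : (q ^ 2 - 1) / 2 = 2 * s * (s + 1) := by
    rw [hs]
    have e : (2 * s + 1) ^ 2 - 1 = 2 * (2 * s * (s + 1)) := by
      have : (2 * s + 1) ^ 2 = 2 * (2 * s * (s + 1)) + 1 := by ring
      rw [this, Nat.add_sub_cancel]
    rw [e, Nat.mul_div_cancel_left _ (by norm_num)]
  rw [hN]
  obtain ⟨N, hNd⟩ : ∃ N : ℕ, N = 2 * s * (s + 1) := ⟨_, rfl⟩
  rw [← hNd] at hroots ⊢
  have hdvd := su2_dvd K P N ε hPm hPdeg (fun l hl => hroots l (by rw [← hev]; exact hl))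
  obtain ⟨R, hR⟩ := hdvd
  have h4 : (g.1.1 ^ N - algebraMap F (Matrix (Fin 4) (Fin 4) F) (ε : F)) ^ 4 = 0 := by
    have h5 := congrArg (aeval g.1.1) hR
    rw [map_mul, hPg, zero_mul, map_pow, map_sub, map_pow, aeval_X, aeval_C] at h5
    exact h5
  have hgo : (g.1.1 ^ N) ^ orderOf g = 1 := by
    rw [← pow_mul, mul_comm, pow_mul]
    have h6 : (g ^ orderOf g).1.1 = (1 : Matrix (Fin 4) (Fin 4) F) := by
      rw [pow_orderOf_eq_one]
      rfl
    have h7 : (g ^ orderOf g).1.1 = g.1.1 ^ orderOf g := by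
      rw [Subgroup.coe_pow, Matrix.SpecialLinearGroup.coe_pow]
    rw [← h7, h6, one_pow]
  have hfin := su2_unip p (orderOf g) hp hp2 (g.1.1 ^ N) ε hε h4 hgo hgp
  rw [Subgroup.mem_center_iff]
  intro x
  apply Subtype.ext
  apply Subtype.ext
  show x.1.1 * (g ^ N).1.1 = (g ^ N).1.1 * x.1.1
  have h8 : (g ^ N).1.1 = g.1.1 ^ N := by
    rw [Subgroup.coe_pow, Matrix.SpecialLinearGroup.coe_pow]
  rw [h8, hfin]
  exact (Algebra.commutes _ _).symm

end Pool.CND
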